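import Pool.Agent.R542.CoreNucleus

/-!
# Recognising graphs with `core(G) = nucleus(G)` is NP-hard and coNP-hard

`CoreEqNucleus G` says `core(G) = nucleus(G)` for the input graph `G`, given by its adjacency
matrix; `core` (the intersection of all maximum independent sets) and `nucleus` (the intersection of
all maximum critical independent sets) are defined in `Pool/Agent/R542/CoreNucleus.lean`.

Proof. A graph in which more than half of the vertices are adjacent to all other vertices has no
nonempty critical independent set, so its nucleus is empty. Let `H` be the conflict graph of a 3CNF
formula with `k` clauses; its independence number is at most `k`, and it is `k` if and only if the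
formula is satisfiable. Join `H + e K₁`, `e` independent sets of size `k + 1`, and a large clique
completely to each other. For `e = 1` the core of the result is empty if and only if the formula is
satisfiable, and for `e = 2` it is empty if and only if the formula is not satisfiable.
-/

set_option autoImplicit false

namespace Pool.Agent.Results.MP_54ee58_lc.CoreNucleusHard

open Pool.Agent.NPC Pool.Agent.NPC.R542 Pool.Agent.H692R2

/-- **Deciding `core(G) = nucleus(G)` is NP-hard and coNP-hard** under polynomial-time many-one
reductions; so a polynomial-time algorithm for it exists only if `P = NP`. -/
theorem result :
    NPHardP (fun G : FinGraph => core G.graph = nucleus G.graph) ∧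
    CoNPHardP (fun G : FinGraph => core G.graph = nucleus G.graph) ∧
    (InPP (fun G : FinGraph => core G.graph = nucleus G.graph) →
      ∀ L : Set (List Bool), InNP L → InP L) :=
  ⟨hardI_core.toNPHardP, hardI_not_core.toCoNPHardP,
    fun h L hL => InP.of_reduces (hardI_core.toNPHardP L hL) h⟩

end Pool.Agent.Results.MP_54ee58_lc.CoreNucleusHard
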